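import Pool.Agent.Q61.DP.Stm

/-! Project DP of helper61, job S_E1. -/

namespace Pool.Agent.Q123.DP.E1

open Set Filter Topology Function Metric
open Pool.Agent.Q61.DP

theorem inner_sg {e1 e2 n : E3} (h : ON e1 e2 n) (w w₀ : ℂ) :
    inner ℝ (sg e1 e2 n w) (sg e1 e2 n w₀) * ((1 + ‖w‖ ^ 2) * (1 + ‖w₀‖ ^ 2)) =
      4 * (w.re * w₀.re + w.im * w₀.im) + (1 - ‖w‖ ^ 2) * (1 - ‖w₀‖ ^ 2) := by
  obtain ⟨h1, h2, h3, h4, h5, h6⟩ := h
  have i1 : inner ℝ e1 e1 = (1 : ℝ) := by rw [real_inner_self_eq_norm_sq, h1]; norm_num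
  have i2 : inner ℝ e2 e2 = (1 : ℝ) := by rw [real_inner_self_eq_norm_sq, h2]; norm_num
  have i3 : inner ℝ n n = (1 : ℝ) := by rw [real_inner_self_eq_norm_sq, h3]; norm_num
  have i4 : inner ℝ e2 e1 = (0 : ℝ) := by rw [real_inner_comm, h4]
  have i5 : inner ℝ n e1 = (0 : ℝ) := by rw [real_inner_comm, h5]
  have i6 : inner ℝ n e2 = (0 : ℝ) := by rw [real_inner_comm, h6]
  have p1 : (0 : ℝ) < 1 + ‖w‖ ^ 2 := by positivity
  have p2 : (0 : ℝ) < 1 + ‖w₀‖ ^ 2 := by positivity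
  simp only [sg, inner_smul_left, inner_smul_right, inner_add_left, inner_add_right, i1, i2, i3,
    i4, i5, i6, h4, h5, h6, conj_trivial]
  field_simp
  ring

theorem cosb {x : ℝ} (hx : |x| < 1 / 2) : 7 / 8 < Real.cos x := by
  have h1 := Real.one_sub_sq_div_two_le_cos (x := x)
  have h2 : x ^ 2 < (1 / 2) ^ 2 := sq_lt_sq' (by linarith [(abs_lt.1 hx).1]) (abs_lt.1 hx).2
  linarith

theorem expb {x : ℝ} (hx : x < 1 / 2) : Real.exp x < 7 / 4 := by
  have h1 : Real.exp x < Real.exp (1 / 2) := Real.exp_lt_exp.2 hx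
  have h2 : Real.exp (1 / 2) ^ 2 < (7 / 4) ^ 2 := by
    rw [← Real.exp_nat_mul]
    norm_num
    linarith [Real.exp_one_lt_d9]
  have h3 := abs_lt_of_sq_lt_sq h2 (by norm_num)
  linarith [(abs_lt.1 h3).2]

/-- the numerical estimate -/
theorem est {ζ ζ₀ : ℂ} (h : ζ ∈ ball ζ₀ (1 / 2)) (w w₀ : ℂ) (hw : w = Complex.exp ζ)
    (hw₀ : w₀ = Complex.exp ζ₀) :
    |1 - ‖w₀‖ ^ 2| * (1 + ‖w‖ ^ 2) <
      4 * (w.re * w₀.re + w.im * w₀.im) + (1 - ‖w‖ ^ 2) * (1 - ‖w₀‖ ^ 2) := by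
  rw [mem_ball, dist_eq_norm] at h
  have hre : |ζ.re - ζ₀.re| < 1 / 2 := by
    have := Complex.abs_re_le_norm (ζ - ζ₀)
    rw [Complex.sub_re] at this; linarith
  have him : |ζ.im - ζ₀.im| < 1 / 2 := by
    have := Complex.abs_im_le_norm (ζ - ζ₀)
    rw [Complex.sub_im] at this; linarith
  have n1 : ‖w‖ = Real.exp ζ.re := by rw [hw, Complex.norm_exp]
  have n2 : ‖w₀‖ = Real.exp ζ₀.re := by rw [hw₀, Complex.norm_exp]
  have e1 : w.re * w₀.re + w.im * w₀.im = ‖w‖ * ‖w₀‖ * Real.cos (ζ.im - ζ₀.im) := by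
    rw [n1, n2, hw, hw₀, Complex.exp_re, Complex.exp_re, Complex.exp_im, Complex.exp_im,
      Real.cos_sub]
    ring
  have hc := cosb him
  set C := Real.cos (ζ.im - ζ₀.im) with hC
  have r1 : 0 < ‖w‖ := by rw [n1]; exact Real.exp_pos _
  have r2 : 0 < ‖w₀‖ := by rw [n2]; exact Real.exp_pos _
  have q1 : ‖w‖ < 7 / 4 * ‖w₀‖ := by
    have : ‖w‖ = Real.exp (ζ.re - ζ₀.re) * ‖w₀‖ := by
      rw [n1, n2, ← Real.exp_add]; congr 1; ring
    rw [this]
    exact mul_lt_mul_of_pos_right (expb (abs_lt.1 hre).2) r2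
  have q2 : ‖w₀‖ < 7 / 4 * ‖w‖ := by
    have : ‖w₀‖ = Real.exp (ζ₀.re - ζ.re) * ‖w‖ := by
      rw [n1, n2, ← Real.exp_add]; congr 1; ring
    rw [this]
    refine mul_lt_mul_of_pos_right (expb ?_) r1
    linarith [(abs_lt.1 hre).1]
  rw [e1]
  set r := ‖w‖ with hr
  set s := ‖w₀‖ with hs
  rcases le_total s 1 with h1 | h1
  · rw [abs_of_nonneg (by nlinarith)]
    have k1 : r * (1 - s ^ 2) < 2 * s * C := by
      have a1 : r * (1 - s ^ 2) ≤ r := by nlinarith [mul_pos r1 (pow_pos r2 2)]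
      have a2 : 7 / 4 * s < 2 * s * C := by nlinarith
      linarith
    have k2 := mul_lt_mul_of_pos_left k1 (mul_pos two_pos r1)
    nlinarith
  · rw [abs_of_nonpos (by nlinarith)]
    have k1 : s ^ 2 - 1 < 2 * r * s * C := by
      have a2 : 7 / 4 * (r * s) < 2 * (r * s) * C := by
        have := mul_pos r1 r2
        nlinarith
      have a3 : s * s < 7 / 4 * r * s := mul_lt_mul_of_pos_right q2 r2
      nlinarith
    nlinarith

theorem s_E1 (hS : S_SIG) (hR : S_RAD) : S_E1 := by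
  intro u a b P e1 e2 n hD hfr hLH hsing
  obtain ⟨hsgc, hsg, -, -, hlast⟩ := hS e1 e2 n hfr.1
  obtain ⟨h1, h2, h3⟩ := hlast u a b P hD hfr hLH.2.1
  have hn : ‖n‖ = 1 := hfr.1.2.2.1
  have hn0 : n ≠ 0 := fun h => by rw [h, norm_zero] at hn; exact zero_ne_one hn
  have hrad : ∀ z, 0 < rad P z ∧ rad P z ≤ Real.pi / 2 := fun z =>
    ⟨(hR P hLH z).1, (hR P hLH z).2.1⟩
  have hpi := Real.pi_pos
  have hne : ∀ z, P z ≠ n ∧ P z ≠ -n := by
    intro z
    constructor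
    · intro hz
      rcases hsing z with ⟨-, h, -⟩ | ⟨-, h, -⟩
      · rw [hz, InnerProductGeometry.angle_self hn0] at h
        linarith [(hrad z).1]
      · rw [hz, InnerProductGeometry.angle_neg_self_of_nonzero hn0] at h
        linarith [(hrad z).2]
    · intro hz
      rcases hsing z with ⟨-, h, -⟩ | ⟨-, h, -⟩
      · rw [hz, InnerProductGeometry.angle_self_neg_of_nonzero hn0] at h
        linarith [(hrad z).2]
      · rw [hz, InnerProductGeometry.angle_self (neg_ne_zero.2 hn0)] at h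
        linarith [(hrad z).1]
  refine ⟨fun z => ⟨fun h => (hne z).2 ((h2 z).2 h), fun h => ?_⟩, ?_⟩
  · have hz : P z = sg e1 e2 n 0 := (h1 z 0).2 (by rw [h, zero_mul])
    refine (hne z).1 (hz.trans ?_)
    simp [sg]
  · intro z ζ₀ hz
    obtain ⟨hr0, hr1, g, hg, hgz⟩ := hR P hLH z
    have hPz : P z = sg e1 e2 n (Complex.exp ζ₀) := (h1 z _).2 hz
    have hcos : Real.cos (rad P z) = |1 - ‖Complex.exp ζ₀‖ ^ 2| / (1 + ‖Complex.exp ζ₀‖ ^ 2) := by
      have p2 : (0 : ℝ) < 1 + ‖Complex.exp ζ₀‖ ^ 2 := by positivity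
      have hin : inner ℝ (P z) n = (1 - ‖Complex.exp ζ₀‖ ^ 2) / (1 + ‖Complex.exp ζ₀‖ ^ 2) := by
        rw [hPz]; exact (hsg _).2.1
      have hc0 : 0 ≤ Real.cos (rad P z) :=
        Real.cos_nonneg_of_mem_Icc ⟨by linarith, hr1⟩
      have hb : |inner ℝ (P z) n| = |1 - ‖Complex.exp ζ₀‖ ^ 2| / (1 + ‖Complex.exp ζ₀‖ ^ 2) := by
        rw [hin, abs_div, abs_of_pos p2]
      rw [← hb, ← abs_of_nonneg hc0]
      rcases hsing z with ⟨-, h, -⟩ | ⟨-, h, -⟩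
      · rw [← h, InnerProductGeometry.cos_angle, hn, hLH.2.1 z, real_inner_comm]; norm_num
      · rw [← h, InnerProductGeometry.cos_angle, norm_neg, hn, hLH.2.1 z, real_inner_comm,
          inner_neg_right]
        norm_num
    have hmem : ∀ ζ ∈ ball ζ₀ (1 / 2), sg e1 e2 n (Complex.exp ζ) ∈ capA (P z) (rad P z) := by
      intro ζ hζ
      refine ⟨(hsg _).1, ?_⟩
      by_contra hcon
      have hle := Real.cos_le_cos_of_nonneg_of_le_pi hr0.le
        (InnerProductGeometry.angle_le_pi _ _) (not_lt.1 hcon)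
      rw [hcos, InnerProductGeometry.cos_angle, (hsg _).1, hLH.2.1 z, mul_one, div_one, hPz] at hle
      have p1 : (0 : ℝ) < 1 + ‖Complex.exp ζ‖ ^ 2 := by positivity
      have p2 : (0 : ℝ) < 1 + ‖Complex.exp ζ₀‖ ^ 2 := by positivity
      have h5 := inner_sg hfr.1 (Complex.exp ζ) (Complex.exp ζ₀)
      have h6 := est hζ _ _ rfl rfl
      have h7 := mul_le_mul_of_nonneg_right hle (mul_pos p1 p2).le
      rw [h5] at h7
      have h8 : |1 - ‖Complex.exp ζ₀‖ ^ 2| / (1 + ‖Complex.exp ζ₀‖ ^ 2) *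
          ((1 + ‖Complex.exp ζ‖ ^ 2) * (1 + ‖Complex.exp ζ₀‖ ^ 2)) =
          |1 - ‖Complex.exp ζ₀‖ ^ 2| * (1 + ‖Complex.exp ζ‖ ^ 2) := by
        field_simp
      rw [h8] at h7
      linarith
    refine ⟨fun ζ => g (sg e1 e2 n (Complex.exp ζ)), ?_, ?_, ?_⟩
    · exact hg.1.comp (hsgc.comp Complex.continuous_exp).continuousOn hmem
    · show g (sg e1 e2 n (Complex.exp ζ₀)) = z
      rw [← hPz, hgz]
    · intro ζ hζ
      exact (h1 _ _).1 (hg.2 _ (hmem ζ hζ))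

end Pool.Agent.Q123.DP.E1
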