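import Pool.Agent.Q61.DP.Stm

/-! Project DP of helper61, job S_E2: an entire local homeomorphism with uniform inverses is affine. -/

namespace Pool.Agent.Q123.DP.E2

open Set Filter Topology Function Bornology Metric
open Pool.Agent.Q61.DP

theorem removable_limit {f : ℂ → ℂ} {c : ℂ} (hd : ∀ᶠ z in 𝓝[≠] c, DifferentiableAt ℂ f z)
    {C : ℝ} (hb : ∀ᶠ z in 𝓝[≠] c, ‖f z‖ ≤ C) : ∃ l, Tendsto f (𝓝[≠] c) (𝓝 l) := by
  refine ⟨_, Complex.tendsto_limUnder_of_differentiable_on_punctured_nhds_of_bounded_under hd ?_⟩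
  refine ⟨C + ‖f c‖, ?_⟩
  rw [eventually_map]
  filter_upwards [hb] with z hz
  exact norm_sub_le_of_le hz le_rfl

theorem differentiableAt_update {f : ℂ → ℂ} {c l : ℂ}
    (hd : ∀ᶠ z in 𝓝[≠] c, DifferentiableAt ℂ f z) (hl : Tendsto f (𝓝[≠] c) (𝓝 l)) :
    DifferentiableAt ℂ (update f c l) c := by
  rw [eventually_nhdsWithin_iff] at hd
  set s : Set ℂ := {z | z ≠ c → DifferentiableAt ℂ f z} with hs
  have hsn : s ∈ 𝓝 c := hd
  have h1 : DifferentiableOn ℂ (update f c l) (s \ {c}) := by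
    intro z hz
    have h2 : DifferentiableAt ℂ f z := hz.1 hz.2
    have h3 : update f c l =ᶠ[𝓝 z] f := by
      filter_upwards [isOpen_ne.mem_nhds hz.2] with w hw
      exact update_of_ne hw _ _
    exact (h3.differentiableAt_iff.2 h2).differentiableWithinAt
  have h2 : ContinuousAt (update f c l) c := continuousAt_update_same.2 hl
  exact ((Complex.differentiableOn_compl_singleton_and_continuousAt_iff hsn).1 ⟨h1, h2⟩).differentiableAt hsn

theorem affine_of_injective_aux {H : ℂ → ℂ} (hH : Differentiable ℂ H) (hinj : Injective H)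
    (h0 : H 0 = 0) (hd0 : deriv H 0 ≠ 0) : ∃ a, a ≠ 0 ∧ ∀ z, H z = a * z := by
  have hne : ∀ z, z ≠ 0 → H z ≠ 0 := fun z hz h => hz (hinj (h.trans h0.symm))
  -- openness
  have hopen : IsOpenMap H := by
    have han : AnalyticOnNhd ℂ H univ := fun z _ => hH.analyticAt z
    rcases han.is_constant_or_isOpenMap with ⟨w, hw⟩ | h
    · exact absurd (hinj ((hw 0).trans (hw 1).symm)) zero_ne_one
    · exact h
  obtain ⟨ε, hε, hball⟩ : ∃ ε > 0, ∀ z : ℂ, 1 ≤ ‖z‖ → ε ≤ ‖H z‖ := by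
    have h1 : H '' Metric.ball 0 1 ∈ 𝓝 (H 0) :=
      (hopen _ Metric.isOpen_ball).mem_nhds (mem_image_of_mem _ (Metric.mem_ball_self one_pos))
    rw [h0] at h1
    obtain ⟨ε, hε, hb⟩ := Metric.mem_nhds_iff.1 h1
    refine ⟨ε, hε, fun z hz => ?_⟩
    by_contra hlt
    push Not at hlt
    obtain ⟨w, hw, hwz⟩ := hb (show H z ∈ Metric.ball 0 ε by simpa using hlt)
    rw [hinj hwz] at hw
    simp at hw
    linarith
  set K : ℂ → ℂ := fun z => (dslope H 0 z)⁻¹ with hK
  have hds : Differentiable ℂ (dslope H 0) := by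
    rw [← differentiableOn_univ]
    exact (Complex.differentiableOn_dslope univ_mem).2 hH.differentiableOn
  have hKz : ∀ z, z ≠ 0 → K z = z * (H z)⁻¹ := by
    intro z hz
    simp only [hK]
    rw [dslope_of_ne _ hz, slope_def_field, h0]
    simp [div_eq_mul_inv]
  have hdne : ∀ z, dslope H 0 z ≠ 0 := by
    intro z
    by_cases hz : z = 0
    · rw [hz, dslope_same]; exact hd0
    · rw [dslope_of_ne _ hz, slope_def_field, h0, sub_zero, sub_zero]
      exact div_ne_zero (hne z hz) hz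
  have hKd : Differentiable ℂ K := fun z => (hds z).inv (hdne z)
  set G : ℂ → ℂ := fun ζ => (H ζ⁻¹)⁻¹ with hG
  have hGd : ∀ ζ, ζ ≠ 0 → DifferentiableAt ℂ G ζ := by
    intro ζ hζ
    exact ((hH _).comp ζ (differentiableAt_inv hζ)).inv (hne _ (inv_ne_zero hζ))
  have hGd' : ∀ᶠ ζ in 𝓝[≠] (0:ℂ), DifferentiableAt ℂ G ζ := by
    filter_upwards [self_mem_nhdsWithin] with ζ hζ
    exact hGd ζ hζ
  have hGb : ∀ᶠ ζ in 𝓝[≠] (0:ℂ), ‖G ζ‖ ≤ ε⁻¹ := by
    have h1 : Metric.ball (0:ℂ) 1 ∈ 𝓝[≠] (0:ℂ) := mem_nhdsWithin_of_mem_nhds (Metric.ball_mem_nhds _ one_pos)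
    filter_upwards [self_mem_nhdsWithin, h1] with ζ hζ hζ1
    have h2 : ‖ζ‖ < 1 := by simpa using hζ1
    have h3 : 0 < ‖ζ‖ := norm_pos_iff.2 hζ
    have h4 : 1 ≤ ‖ζ⁻¹‖ := by
      rw [norm_inv]
      exact (one_le_inv₀ h3).2 h2.le
    simp only [hG, norm_inv]
    exact inv_anti₀ hε (hball _ h4)
  obtain ⟨c, hc⟩ := removable_limit hGd' hGb
  by_cases hc0 : c = 0
  · subst hc0
    have hd := (differentiableAt_update hGd' hc).hasDerivAt
    rw [hasDerivAt_iff_tendsto_slope] at hd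
    set d := deriv (update G 0 0) 0 with hdd
    have h1 : Tendsto K (cobounded ℂ) (𝓝 d) := by
      have h2 : Tendsto (fun z : ℂ => slope (update G 0 0) 0 z⁻¹) (cobounded ℂ) (𝓝 d) :=
        hd.comp tendsto_inv₀_cobounded'
      refine h2.congr' ?_
      have h3 : ∀ᶠ z : ℂ in cobounded ℂ, z ≠ 0 := eventually_ne_cobounded 0
      filter_upwards [h3] with z hz
      rw [hKz z hz, slope_def_field, update_self, update_of_ne (inv_ne_zero hz)]
      simp [hG, mul_comm]
    rw [Metric.cobounded_eq_cocompact] at h1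
    have h5 : ∀ z, K z = d := fun z => hKd.apply_eq_of_tendsto_cocompact z h1
    have hdne0 : d ≠ 0 := by
      rw [← h5 0]
      exact inv_ne_zero (hdne 0)
    refine ⟨d⁻¹, inv_ne_zero hdne0, fun z => ?_⟩
    by_cases hz : z = 0
    · rw [hz, h0, mul_zero]
    · have h6 := h5 z
      rw [hKz z hz] at h6
      have h7 := hne z hz
      field_simp at h6 ⊢
      linear_combination (-1 : ℂ) * h6
  · exfalso
    have h1 : Tendsto H (cobounded ℂ) (𝓝 c⁻¹) := by
      have h2 : Tendsto (fun z : ℂ => (G z⁻¹)⁻¹) (cobounded ℂ) (𝓝 c⁻¹) :=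
        (hc.comp tendsto_inv₀_cobounded').inv₀ hc0
      refine h2.congr ?_
      intro z
      simp [hG]
    rw [Metric.cobounded_eq_cocompact] at h1
    have h5 : ∀ z, H z = c⁻¹ := fun z => hH.apply_eq_of_tendsto_cocompact z h1
    exact zero_ne_one (hinj ((h5 0).trans (h5 1).symm))

/-- an injective entire function is affine -/
theorem affine_of_injective {F : ℂ → ℂ} (hF : Differentiable ℂ F) (hinj : Injective F) :
    ∃ a b, a ≠ 0 ∧ ∀ z, F z = a * z + b := by
  obtain ⟨z₁, hz₁⟩ : ∃ z₁, deriv F z₁ ≠ 0 := by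
    by_contra h
    push Not at h
    have := is_const_of_deriv_eq_zero hF h 0 1
    exact zero_ne_one (hinj this)
  have h1 : Differentiable ℂ (fun z => F (z₁ + z) - F z₁) := by fun_prop
  have h2 : Injective (fun z => F (z₁ + z) - F z₁) := by
    intro x y hxy
    simp only [sub_left_inj] at hxy
    exact add_left_cancel (hinj hxy)
  have h3 : deriv (fun z => F (z₁ + z) - F z₁) 0 ≠ 0 := by
    rw [deriv_sub_const, deriv_comp_const_add, add_zero]
    exact hz₁
  obtain ⟨a, ha, h⟩ := affine_of_injective_aux h1 h2 (by simp) h3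
  refine ⟨a, F z₁ - a * z₁, ha, fun z => ?_⟩
  have := h (z - z₁)
  simp only [add_sub_cancel] at this
  linear_combination this


theorem locInj {h : ℂ → ℂ} (hh : Differentiable ℂ h) (hd : ∀ z, deriv h z ≠ 0) :
    IsLocallyInjective h := by
  intro z
  have h1 : HasStrictDerivAt h (deriv h z) z :=
    ((hh.analyticAt z).hasStrictDerivAt)
  have h2 := h1.hasStrictFDerivAt_equiv (hd z)
  exact ⟨(h2.toOpenPartialHomeomorph h).source, (h2.toOpenPartialHomeomorph h).open_source,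
    h2.mem_toOpenPartialHomeomorph_source, (h2.toOpenPartialHomeomorph h).injOn⟩

theorem uniq {h : ℂ → ℂ} (hh : Differentiable ℂ h) (hd : ∀ z, deriv h z ≠ 0) {A : Set ℂ}
    (hA : IsPreconnected A) {k k' : ℂ → ℂ}
    (hk : ContinuousOn k A) (hk' : ContinuousOn k' A) (h1 : ∀ w ∈ A, h (k w) = w)
    (h2 : ∀ w ∈ A, h (k' w) = w) {w₀ : ℂ} (hw₀ : w₀ ∈ A) (he : k w₀ = k' w₀) :
    ∀ w ∈ A, k w = k' w :=
  IsSeparatedMap.eqOn_of_comp_eqOn (T2Space.isSeparatedMap h) (locInj hh hd) hA hk hk'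
    (fun w hw => by simp only [comp_apply]; rw [h1 w hw, h2 w hw]) hw₀ he

theorem ext_step {h : ℂ → ℂ} (hh : Differentiable ℂ h) (hd : ∀ z, deriv h z ≠ 0)
    (hk : ∀ z, ∃ k : ℂ → ℂ, ContinuousOn k (ball (h z) (1 / 2)) ∧ k (h z) = z ∧
      ∀ ζ ∈ ball (h z) (1 / 2), h (k ζ) = ζ) {z₀ : ℂ} {T : ℝ} (hT : 0 < T) (G : ℂ → ℂ)
    (hG : ContinuousOn G (ball (h z₀) T)) (hG1 : ∀ w ∈ ball (h z₀) T, h (G w) = w)
    (hG0 : G (h z₀) = z₀) :
    ∃ G' : ℂ → ℂ, ContinuousOn G' (ball (h z₀) (T + 1 / 4)) ∧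
      (∀ w ∈ ball (h z₀) (T + 1 / 4), h (G' w) = w) ∧ G' (h z₀) = z₀ := by
  choose k hkc hkz hk1 using hk
  set c : ℝ := T / (T + 1 / 4) with hc
  have hT4 : 0 < T + 1 / 4 := by positivity
  have hc0 : 0 < c := by positivity
  have hcT : c * (T + 1 / 4) = T := by rw [hc]; field_simp
  have hc1 : (1 - c) * (T + 1 / 4) = 1 / 4 := by linarith
  have hc1' : 0 < 1 - c := by
    by_contra hneg
    have : (1 - c) * (T + 1 / 4) ≤ 0 := mul_nonpos_of_nonpos_of_nonneg (not_lt.1 hneg) hT4.le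
    linarith
  set m : ℂ → ℂ := fun w => h z₀ + c • (w - h z₀) with hm
  have hmc : Continuous m := by rw [hm]; fun_prop
  have hm1 : ∀ w ∈ ball (h z₀) (T + 1 / 4), m w ∈ ball (h z₀) T := by
    intro w hw
    rw [mem_ball, dist_eq_norm] at hw ⊢
    have : m w - h z₀ = c • (w - h z₀) := by simp [hm]
    rw [this, norm_smul, Real.norm_of_nonneg hc0.le, ← hcT]
    exact mul_lt_mul_of_pos_left hw hc0
  have hm2 : ∀ w ∈ ball (h z₀) (T + 1 / 4), w ∈ ball (m w) (1 / 2) := by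
    intro w hw
    rw [mem_ball, dist_eq_norm] at hw ⊢
    have : w - m w = (1 - c) • (w - h z₀) := by
      simp only [hm, sub_smul, one_smul]; abel
    rw [this, norm_smul, Real.norm_of_nonneg hc1'.le]
    have := mul_lt_mul_of_pos_left hw hc1'
    linarith
  have hm3 : ∀ w ∈ ball (h z₀) (T + 1 / 4), h (G (m w)) = m w := fun w hw => hG1 _ (hm1 w hw)
  have hm0 : m (h z₀) = h z₀ := by simp [hm]
  refine ⟨fun w => k (G (m w)) w, ?_, ?_, ?_⟩
  · intro w₁ hw₁
    apply ContinuousAt.continuousWithinAt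
    have hz₁ := hm3 w₁ hw₁
    set z₁ := G (m w₁) with hz₁def
    have hkz₁ : ContinuousOn (k z₁) (ball (m w₁) (1 / 2)) := by
      have := hkc z₁; rwa [hz₁] at this
    have hkz₁' : ∀ ζ ∈ ball (m w₁) (1 / 2), h (k z₁ ζ) = ζ := by
      have := hk1 z₁; rwa [hz₁] at this
    have hev : ∀ᶠ w in 𝓝 w₁, k (G (m w)) w = k z₁ w := by
      have e1 : ∀ᶠ w in 𝓝 w₁, w ∈ ball (h z₀) (T + 1 / 4) := isOpen_ball.mem_nhds hw₁
      have e2 : ∀ᶠ w in 𝓝 w₁, m w ∈ ball (m w₁) (1 / 2) :=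
        hmc.continuousAt.preimage_mem_nhds (ball_mem_nhds _ (by norm_num))
      have e3 : ∀ᶠ w in 𝓝 w₁, w ∈ ball (m w₁) (1 / 2) := isOpen_ball.mem_nhds (hm2 w₁ hw₁)
      filter_upwards [e1, e2, e3] with w h1 h2 h3
      have s1 : k z₁ (m w) = G (m w) := by
        refine uniq hh hd (A := ball (h z₀) T ∩ ball (m w₁) (1 / 2))
          ((convex_ball _ _).inter (convex_ball _ _)).isPreconnected
          (hkz₁.mono inter_subset_right) (hG.mono inter_subset_left)
          (fun w hw => hkz₁' w hw.2) (fun w hw => hG1 w hw.1)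
          (w₀ := m w₁) ⟨hm1 w₁ hw₁, mem_ball_self (by norm_num)⟩ ?_ (m w) ⟨hm1 w h1, h2⟩
        have := hkz z₁
        rwa [hz₁] at this
      have hz := hm3 w h1
      have hkz₂ : ContinuousOn (k (G (m w))) (ball (m w) (1 / 2)) := by
        have := hkc (G (m w)); rwa [hz] at this
      have hkz₂' : ∀ ζ ∈ ball (m w) (1 / 2), h (k (G (m w)) ζ) = ζ := by
        have := hk1 (G (m w)); rwa [hz] at this
      refine uniq hh hd (A := ball (m w) (1 / 2) ∩ ball (m w₁) (1 / 2))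
          ((convex_ball _ _).inter (convex_ball _ _)).isPreconnected
          (hkz₂.mono inter_subset_left) (hkz₁.mono inter_subset_right)
          (fun w hw => hkz₂' w hw.1) (fun w hw => hkz₁' w hw.2)
          (w₀ := m w) ⟨mem_ball_self (by norm_num), h2⟩ ?_ w ⟨hm2 w h1, h3⟩
      have := hkz (G (m w))
      rw [hz] at this
      rw [this, s1]
    have hca : ContinuousAt (k z₁) w₁ := hkz₁.continuousAt (isOpen_ball.mem_nhds (hm2 w₁ hw₁))
    exact hca.congr (hev.mono fun w hw => hw.symm)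
  · intro w hw
    have hz := hm3 w hw
    have := hk1 (G (m w))
    rw [hz] at this
    exact this w (hm2 w hw)
  · show k (G (m (h z₀))) (h z₀) = z₀
    rw [hm0, hG0, hkz]

theorem s_E2 : S_E2 := by
  intro h hh hd hk
  have key : ∀ n : ℕ, ∃ G : ℂ → ℂ, ContinuousOn G (ball (h 0) (1 / 2 + n * (1 / 4))) ∧
      (∀ w ∈ ball (h 0) (1 / 2 + n * (1 / 4)), h (G w) = w) ∧ G (h 0) = 0 := by
    intro n
    induction n with
    | zero =>
      obtain ⟨k, h1, h2, h3⟩ := hk 0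
      exact ⟨k, by simpa using h1, by simpa using h3, h2⟩
    | succ n ih =>
      obtain ⟨G, h1, h2, h3⟩ := ih
      obtain ⟨G', h1', h2', h3'⟩ := ext_step hh hd hk (z₀ := 0) (T := 1 / 2 + n * (1 / 4))
        (by positivity) G h1 h2 h3
      have e : (1 / 2 + ((n + 1 : ℕ) : ℝ) * (1 / 4)) = 1 / 2 + n * (1 / 4) + 1 / 4 := by
        push_cast; ring
      rw [e]
      exact ⟨G', h1', h2', h3'⟩
  choose Gn hc hi h0 using key
  have agree : ∀ m n : ℕ, ∀ w ∈ ball (h 0) (1 / 2 + (m : ℝ) * (1 / 4)) ∩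
      ball (h 0) (1 / 2 + (n : ℝ) * (1 / 4)), Gn m w = Gn n w := by
    intro m n
    refine uniq hh hd ((convex_ball _ _).inter (convex_ball _ _)).isPreconnected
      ((hc m).mono inter_subset_left) ((hc n).mono inter_subset_right)
      (fun w hw => hi m w hw.1) (fun w hw => hi n w hw.2) (w₀ := h 0)
      ⟨mem_ball_self (by positivity), mem_ball_self (by positivity)⟩ ?_
    rw [h0, h0]
  have hN : ∀ w, ∃ n : ℕ, w ∈ ball (h 0) (1 / 2 + (n : ℝ) * (1 / 4)) := by
    intro w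
    obtain ⟨n, hn⟩ := exists_nat_gt (4 * dist w (h 0))
    exact ⟨n, by rw [mem_ball]; linarith⟩
  choose N hN using hN
  set G : ℂ → ℂ := fun w => Gn (N w) w with hG
  have hGn : ∀ n : ℕ, ∀ w ∈ ball (h 0) (1 / 2 + (n : ℝ) * (1 / 4)), G w = Gn n w :=
    fun n w hw => agree (N w) n w ⟨hN w, hw⟩
  have hGi : ∀ w, h (G w) = w := fun w => hi (N w) w (hN w)
  have hGc : ∀ w, ContinuousAt G w := by
    intro w
    have h1 : ContinuousAt (Gn (N w)) w := (hc (N w)).continuousAt (isOpen_ball.mem_nhds (hN w))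
    refine h1.congr ?_
    filter_upwards [isOpen_ball.mem_nhds (hN w)] with v hv
    exact (hGn _ v hv).symm
  have hGd : Differentiable ℂ G := fun w =>
    (HasDerivAt.of_local_left_inverse (hGc w) (hh (G w)).hasDerivAt (hd (G w))
      (Eventually.of_forall hGi)).differentiableAt
  have hinj : Injective G := fun x y hxy => by rw [← hGi x, ← hGi y, hxy]
  obtain ⟨a, b, ha, hab⟩ := affine_of_injective hGd hinj
  refine ⟨a⁻¹, -(a⁻¹ * b), inv_ne_zero ha, fun z => ?_⟩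
  have h1 := hGi (a⁻¹ * (z - b))
  rw [hab, mul_inv_cancel_left₀ ha, sub_add_cancel] at h1
  rw [h1]; ring

end Pool.Agent.Q123.DP.E2
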