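import Pool.Agent.Q61.DP.Stm

/-! Project DP of helper61, job S_E3: logarithms of entire functions without zeros. -/

namespace Pool.Agent.Q123.DP.E3

open Set Filter Topology Function
open Pool.Agent.Q61.DP

theorem s_E3 : S_E3 := by
  intro F hF hF0
  have hF' : Differentiable ℂ (fun z => deriv F z / F z) := by
    have h1 : Differentiable ℂ (deriv F) := hF.contDiff.differentiable_deriv_two
    exact fun z => (h1 z).div (hF z) (hF0 z)
  obtain ⟨g, hg⟩ := hF'.isExactOn_univ
  have hg' : ∀ z, HasDerivAt g (deriv F z / F z) z := fun z => hg z (mem_univ z)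
  have hgd : Differentiable ℂ g := fun z => (hg' z).differentiableAt
  have hq : ∀ z, HasDerivAt (fun z => F z * Complex.exp (-(g z))) 0 z := by
    intro z
    have h1 := (hF z).hasDerivAt.mul ((hg' z).neg.cexp)
    refine h1.congr_deriv ?_
    field_simp [hF0 z]
    ring
  have hconst : ∀ z, F z * Complex.exp (-(g z)) = F 0 * Complex.exp (-(g 0)) := fun z =>
    is_const_of_deriv_eq_zero (fun z => (hq z).differentiableAt) (fun z => (hq z).deriv) z 0
  have hne : F 0 * Complex.exp (-(g 0)) ≠ 0 := mul_ne_zero (hF0 0) (Complex.exp_ne_zero _)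
  refine ⟨fun z => g z + Complex.log (F 0 * Complex.exp (-(g 0))), by fun_prop, fun z => ?_⟩
  rw [Complex.exp_add, Complex.exp_log hne, ← hconst z, Complex.exp_neg]
  field_simp [Complex.exp_ne_zero]

end Pool.Agent.Q123.DP.E3
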