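import Pool.Agent.Q123.DP.E2
import Pool.Agent.Q123.DP.E3

/-! Project DP of helper61, job S_E5. -/

namespace Pool.Agent.Q123.DP.E5

open Set Filter Topology Function Metric
open Pool.Agent.Q61.DP
open Pool.Agent.Q123.DP.E2

theorem s_E5 (hF : S_FRAME) (hL : S_LHP) (h1 : S_E1) (h2 : S_E2) (h3 : S_E3) (h4 : S_E4) :
    S_E5 := by
  rintro u a₀ b₀ hdev ⟨c, hc, hsing⟩
  obtain ⟨e1, e2, a, b, hD, hfr⟩ := hF u a₀ b₀ hdev c hc
  obtain ⟨hne, hk⟩ := h1 u a b (Bl a₀ b₀) e1 e2 c hD hfr (hL u a₀ b₀ hdev) hsing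
  have hFd : Differentiable ℂ (fun z => b z / a z) := fun z => (hD.db z).div (hD.da z) (hne z).1
  obtain ⟨h, hh, hexp⟩ := h3 (fun z => b z / a z) hFd
    (fun z => div_ne_zero (hne z).2 (hne z).1)
  have hb : ∀ z, b z = Complex.exp (h z) * a z := fun z => by
    rw [← hexp z]; field_simp [(hne z).1]
  have hd : ∀ z, deriv h z ≠ 0 := by
    intro z h0
    have e1 : HasDerivAt (fun z => b z / a z) ((deriv b z * a z - b z * deriv a z) / a z ^ 2) z :=
      (hD.db z).hasDerivAt.div (hD.da z).hasDerivAt (hne z).1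
    have e2 : HasDerivAt (fun z => b z / a z) (Complex.exp (h z) * deriv h z) z := by
      have : (fun z => b z / a z) = fun z => Complex.exp (h z) := funext hexp
      rw [this]
      exact (hh z).hasDerivAt.cexp
    have e3 := e1.unique e2
    rw [h0, mul_zero] at e3
    have e4 : deriv b z * a z - b z * deriv a z = 1 := by
      rw [← hD.wr z]; ring
    rw [e4] at e3
    exact one_div_ne_zero (pow_ne_zero 2 (hne z).1) e3
  have hexpd : ∀ z, deriv Complex.exp z ≠ 0 := fun z => by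
    rw [Complex.deriv_exp]; exact Complex.exp_ne_zero z
  obtain ⟨α, β, hα, hαβ⟩ := h2 h hh hd (by
    intro z
    obtain ⟨k, k1, k2, k3⟩ := hk z (h z) (hb z)
    refine ⟨k, k1, k2, ?_⟩
    refine IsSeparatedMap.eqOn_of_comp_eqOn (T2Space.isSeparatedMap Complex.exp)
      (locInj Complex.differentiable_exp hexpd) (convex_ball _ _).isPreconnected
      (g₁ := fun ζ => h (k ζ)) (g₂ := fun ζ => ζ) (hh.continuous.comp_continuousOn k1)
      continuousOn_id (fun ζ hζ => ?_) (mem_ball_self (by norm_num)) ?_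
    · simp only [comp_apply]
      have e1 := k3 ζ hζ
      rw [hb (k ζ)] at e1
      exact mul_right_cancel₀ (hne (k ζ)).1 e1
    · show h (k (h z)) = h z
      rw [k2])
  exact h4 u a b hD α β hα (fun z => by rw [hb z, hαβ z])

end Pool.Agent.Q123.DP.E5
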